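import Pool.Agent.Y878.PO.D8
import Pool.Agent.Y878.PO.D20

/-!
# Popov's question: the answer for every degree up to 40

`E n f` is the best Hausdorff approximation of `f` on `[-1, 1]` by polynomials of degree at most
`n`, and `K` is the class of the continuous convex functions `[-1, 1] → [0, 1]` (definitions of
the starting file `PopovFalse`, which has `2 ≤ n ≤ 7` and one ramp).

For `n ≤ 1` the inequality `E n f ≤ E n |x|` is true for all `f` in `K` (the common bound is
`1 / 2`), and for every `n` with `2 ≤ n ≤ 40` it fails for every ramp which vanishes up to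
`1 - 1 / M` and climbs to `1` at the end point, `M ≥ 10 ^ 6`, one function for all these `n`.

Proof. Upper bounds for `E n |x|`: explicit even polynomials of degree 2, 8 and 20. It is enough
that such a polynomial is at most `δ` at `0` and within `2 δ` of `|x|` elsewhere, with obvious
changes near `0` and near the end points (`hdist_abs`). Lower bounds for the ramps: a polynomial
of degree at most `n` which is at most `δ` in absolute value on `[-1, 1 - 1 / M - δ]` is at most
`δ T_n(y)` on `[-1, 1]` for a suitable `y > 1`, and `T_n((u + 1 / u) / 2) = (u ^ n + u ^ (-n)) / 2`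
(`rmp_lower`).
-/

set_option autoImplicit false

namespace Pool.Agent.Results.MP_170294_an.PopovUpToForty

open Pool.Agent.Results.MP_170294_an.PopovFalse Pool.Agent.Y878.PO

/-- the lower bound for all steep ramps, from numerical data -/
theorem lower (M u δ : ℝ) (N : ℕ) (hM : 10 ^ 6 ≤ M) (hδ : 0 < δ) (hd2 : δ < 1 / 10) (hu : 1 < u)
    (hy : (1 / 10 ^ 6 + δ) * (2 * u) ≤ (u - 1) ^ 2 * (1 - (1 / 10 ^ 6 + δ) / 2))
    (hT : δ * ((u ^ N + (u⁻¹) ^ N) / 2) ≤ 1 - δ) (n : ℕ) (hn : n ≤ N) : δ ≤ E n (rmp M) := by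
  have hM0 : 0 < M := by linarith [show (0 : ℝ) < 10 ^ 6 by norm_num]
  have hr : 1 / M ≤ 1 / 10 ^ 6 := one_div_le_one_div_of_le (by norm_num) hM
  have hr0 : 0 < 1 / M := by positivity
  refine E_rmp M (1 / M) u δ N hM0 (by field_simp) hδ (by linarith) (by linarith) hu ?_ hT n hn
  have h1 : (1 / M + δ) * (2 * u) ≤ (1 / 10 ^ 6 + δ) * (2 * u) := by
    apply mul_le_mul_of_nonneg_right (by linarith) (by linarith)
  have h2 : (u - 1) ^ 2 * (1 - (1 / 10 ^ 6 + δ) / 2) ≤ (u - 1) ^ 2 * (1 - (1 / M + δ) / 2) := by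
    apply mul_le_mul_of_nonneg_left (by linarith) (sq_nonneg _)
  linarith

/-- **Popov's inequality** is true for `n ≤ 1`, and for `2 ≤ n ≤ 40` every ramp of slope at least
`10 ^ 6` violates it. -/
theorem result :
    (∀ n : ℕ, n ≤ 1 → E n (fun x => |x|) = 1 / 2 ∧ ∀ f ∈ K, E n f ≤ E n (fun x => |x|)) ∧
    (∀ M : ℝ, 10 ^ 6 ≤ M → (fun x : ℝ => max 0 (M * x - (M - 1))) ∈ K ∧
      ∀ n : ℕ, 2 ≤ n → n ≤ 40 →
        E n (fun x => |x|) < E n (fun x : ℝ => max 0 (M * x - (M - 1)))) := by
  refine ⟨fun n hn => ⟨E_abs_one n hn, fun f hf => ?_⟩, fun M hM => ⟨?_, fun n h2 h40 => ?_⟩⟩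
  · rw [E_abs_one n hn]
    exact E_le_half n f hf
  · exact rmp_mem M (by linarith [show (0 : ℝ) < 10 ^ 6 by norm_num])
  · change E n (fun x => |x|) < E n (rmp M)
    rcases le_total n 7 with h | h
    · refine lt_of_le_of_lt (E_abs_le n h2) (lt_of_lt_of_le (by norm_num : (1 : ℝ) / 12 < 17 / 200)
        (lower M (38 / 25) (17 / 200) 7 hM ?_ ?_ ?_ ?_ ?_ n h))
      all_goals norm_num
    · rcases le_total n 20 with h' | h'
      · rcases Nat.eq_or_lt_of_le h with h7 | h8
        · subst h7
          refine lt_of_le_of_lt (E_abs_le 7 h2) (lt_of_lt_of_le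
            (by norm_num : (1 : ℝ) / 12 < 17 / 200)
            (lower M (38 / 25) (17 / 200) 7 hM ?_ ?_ ?_ ?_ ?_ 7 le_rfl))
          all_goals norm_num
        · refine lt_of_le_of_lt (D8.E_le n h8) (lt_of_lt_of_le
            (by norm_num : (449 : ℝ) / 20000 < 1123 / 50000)
            (lower M (619 / 500) (1123 / 50000) 20 hM ?_ ?_ ?_ ?_ ?_ n h'))
          all_goals norm_num
      · refine lt_of_le_of_lt (D20.E_le n h') (lt_of_lt_of_le
          (by norm_num : (899 : ℝ) / 100000 < 9 / 1000)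
          (lower M (143 / 125) (9 / 1000) 40 hM ?_ ?_ ?_ ?_ ?_ n h40))
        all_goals norm_num

end Pool.Agent.Results.MP_170294_an.PopovUpToForty
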